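import Pool.Agent.H94.EGC.S1

/-!
# EGC: LEX, the lexicographic ideal
-/

set_option autoImplicit false

namespace Pool.EGC

open MvPolynomial Pool.EGH

/-- Counting exponents of a given degree. -/
theorem lex_card {n : ℕ} (d : ℕ) (P : (Fin n → ℕ) → Prop) [DecidablePred P] :
    Nat.card {s : Fin n →₀ ℕ // P (fun i => s i) ∧ s.degree = d} =
      ((Finset.piAntidiag Finset.univ d).filter P).card := by
  classical
  rw [← Fintype.card_coe, ← Nat.card_eq_fintype_card]
  refine Nat.card_congr ⟨fun s => ⟨fun i => s.1 i, ?_⟩,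
    fun x => ⟨Finsupp.equivFunOnFinite.symm x.1, ?_⟩, fun s => ?_, fun x => ?_⟩
  · rw [Finset.mem_filter, Finset.mem_piAntidiag]
    exact ⟨⟨(Finsupp.degree_eq_sum s.1).symm.trans s.2.2, fun i _ => Finset.mem_univ i⟩, s.2.1⟩
  · have h := x.2
    rw [Finset.mem_filter, Finset.mem_piAntidiag] at h
    refine ⟨h.2, ?_⟩
    rw [Finsupp.degree_eq_sum]
    exact h.1.1
  · exact Subtype.ext (Finsupp.ext fun i => rfl)
  · exact Subtype.ext rfl

/-- The exponents of the lexicographic ideal. -/
def lexS {n : ℕ} (A : ℕ → Finset (Fin n → ℕ)) : Set (Fin n →₀ ℕ) :=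
  {s | ∃ x ∈ A s.degree, x = (fun i => s i) ∨ lx x (fun i => s i)}

theorem lexS_step (hLXO : LXOStmt) (hMOM : MOMStmt) {n r : ℕ} (hr : r < n)
    {A : ℕ → Finset (Fin n → ℕ)} (h1 : ∀ d, Sg (cp r n) d (A d))
    (h2 : ∀ d, up (cp r n) d (A d) ⊆ A (d + 1)) {s : Fin n →₀ ℕ} (hs : s ∈ lexS A) (i : Fin n) :
    s + Finsupp.single i 1 ∈ lexS A := by
  classical
  obtain ⟨m, rfl⟩ : ∃ m, n = m + 1 := ⟨n - 1, by omega⟩
  obtain ⟨x, hx, hxs⟩ := hs
  have e1 : (fun j => (s + Finsupp.single i 1 : Fin (m + 1) →₀ ℕ) j) =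
      (fun j => s j) + Pi.single i 1 := by
    funext j
    rw [Finsupp.add_apply, Pi.add_apply, Finsupp.single_eq_pi_single]
  have e2 : (s + Finsupp.single i 1).degree = s.degree + 1 := by
    rw [map_add, Finsupp.degree_single]
  have hxm := ((hMOM (m + 1) (cp r (m + 1)) s.degree x).1).1 ((h1 _).1 hx)
  have hy : x + Pi.single (Fin.last m) 1 ∈ A (s.degree + 1) := by
    refine h2 _ (((hMOM (m + 1) (cp r (m + 1)) s.degree x).2 (A s.degree) _).2
      ⟨((hMOM (m + 1) (cp r (m + 1)) (s.degree + 1) _).1).2 ⟨?_, fun j hj => ?_⟩,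
        x, hx, Fin.last m, rfl⟩)
    · simp only [Pi.add_apply]
      rw [Finset.sum_add_distrib, hxm.1, Finset.sum_pi_single', if_pos (Finset.mem_univ _)]
    · have hj' : (j : ℕ) < r := by
        have := hj
        unfold cp at this
        exact of_decide_eq_true this
      have hne : j ≠ Fin.last m := by
        rintro rfl
        rw [Fin.val_last] at hj'
        omega
      rw [Pi.add_apply, Pi.single_eq_of_ne hne, add_zero]
      exact hxm.2 j hj
  refine ⟨x + Pi.single (Fin.last m) 1, by rw [e2]; exact hy, ?_⟩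
  rw [e1]
  have hlast : ∀ z : Fin (m + 1) → ℕ, z + Pi.single (Fin.last m) 1 = z + Pi.single i 1 ∨
      lx (z + Pi.single (Fin.last m) 1) (z + Pi.single i 1) := by
    intro z
    rcases (Fin.le_last i).lt_or_eq with h3 | h3
    · exact Or.inr ((hLXO (m + 1) z z z).2.2.2.2 i (Fin.last m) h3)
    · exact Or.inl (by rw [h3])
  rcases hxs with hxs | hxs
  · rw [← hxs]
    exact hlast x
  · have h3 : lx (x + Pi.single i 1) ((fun j => s j) + Pi.single i 1) :=
      (hLXO (m + 1) x (fun j => s j) (Pi.single i 1)).2.2.2.1.2 hxs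
    right
    rcases hlast x with h4 | h4
    · rw [h4]
      exact h3
    · exact (hLXO (m + 1) _ _ _).2.1 h4 h3

theorem lexS_up (hLXO : LXOStmt) (hMOM : MOMStmt) {n r : ℕ} (hr : r < n)
    {A : ℕ → Finset (Fin n → ℕ)} (h1 : ∀ d, Sg (cp r n) d (A d))
    (h2 : ∀ d, up (cp r n) d (A d) ⊆ A (d + 1)) :
    ∀ s ∈ lexS A, ∀ t, s ≤ t → t ∈ lexS A := by
  classical
  have h3 : ∀ u s : Fin n →₀ ℕ, s ∈ lexS A → s + u ∈ lexS A := by
    intro u
    induction u using Finsupp.induction_linear with
    | zero =>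
      intro s hs
      rw [add_zero]
      exact hs
    | add f g hf hg =>
      intro s hs
      rw [← add_assoc]
      exact hg _ (hf _ hs)
    | single i a =>
      intro s hs
      induction a with
      | zero =>
        rw [Finsupp.single_zero, add_zero]
        exact hs
      | succ a ih =>
        rw [Finsupp.single_add, ← add_assoc]
        exact lexS_step hLXO hMOM hr h1 h2 ih i
  intro s hs t hst
  have h4 := h3 (t - s) s hs
  rwa [add_tsub_cancel_of_le hst] at h4

/-- The exponents with a large entry at a capped place. -/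
def vioS (n r : ℕ) : Set (Fin n →₀ ℕ) := {s | ∃ i : Fin n, (i : ℕ) < r ∧ 2 ≤ s i}

theorem cp_iff {n r : ℕ} (x : Fin n → ℕ) :
    ¬ Cp (cp r n) x ↔ ∃ i : Fin n, (i : ℕ) < r ∧ 2 ≤ x i := by
  unfold Cp
  push Not
  refine exists_congr fun i => and_congr ⟨fun h => ?_, fun h => ?_⟩ Iff.rfl
  · unfold cp at h
    exact of_decide_eq_true h
  · unfold cp
    exact decide_eq_true h

/-- The sum of the ideals is a monomial ideal. -/
theorem lex_sup {K : Type} [Field K] {n r : ℕ} (hr : r < n) (S : Set (Fin n →₀ ℕ)) :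
    Ideal.span (Set.range fun i : Fin r => (X (Fin.castLE hr.le i) : PR K n) ^ 2) ⊔
      Ideal.span ((fun s => monomial s (1 : K)) '' S) =
    Ideal.span ((fun s => monomial s (1 : K)) '' (vioS n r ∪ S)) := by
  classical
  apply le_antisymm
  · refine sup_le ?_ (Ideal.span_mono (Set.image_mono Set.subset_union_right))
    rw [Ideal.span_le]
    rintro _ ⟨i, rfl⟩
    refine Ideal.subset_span ⟨Finsupp.single (Fin.castLE hr.le i) 2, Or.inl
      ⟨Fin.castLE hr.le i, i.2, ?_⟩, ?_⟩
    · rw [Finsupp.single_eq_same]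
    · show monomial (Finsupp.single (Fin.castLE hr.le i) 2) (1 : K) =
        (X (Fin.castLE hr.le i) : PR K n) ^ 2
      rw [X_pow_eq_monomial]
  · rw [Ideal.span_le]
    rintro _ ⟨s, hs | hs, rfl⟩
    · obtain ⟨i, hi, h2⟩ := hs
      refine Ideal.mem_sup_left ?_
      have h3 : monomial s (1 : K) = monomial (s - Finsupp.single i 2) (1 : K) *
          (X (Fin.castLE hr.le ⟨i, hi⟩) : PR K n) ^ 2 := by
        rw [X_pow_eq_monomial, monomial_mul, one_mul]
        congr 1
        have e1 : (Fin.castLE hr.le ⟨i, hi⟩ : Fin n) = i := rfl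
        rw [e1, tsub_add_cancel_of_le]
        exact Finsupp.single_le_iff.2 h2
      show monomial s (1 : K) ∈ _
      rw [h3]
      exact Ideal.mul_mem_left _ _ (Ideal.subset_span ⟨⟨i, hi⟩, rfl⟩)
    · exact Ideal.mem_sup_right (Ideal.subset_span ⟨s, hs, rfl⟩)

/-- **LEX.** -/
theorem t_lex (hMNI : MNIStmt) (hLXM : LXMStmt) (hLXO : LXOStmt) (hMOM : MOMStmt)
    (hFIN : FINStmt) : LEXStmt := by
  classical
  intro K _ n r hr I hRz
  obtain ⟨A, h1, h2, h3⟩ := hRz
  have hup := lexS_up hLXO hMOM hr h1 h2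
  have hmem : ∀ s : Fin n →₀ ℕ, monomial s (1 : K) ∈
      Ideal.span ((fun s => monomial s (1 : K)) '' lexS A) ↔ s ∈ lexS A := by
    intro s
    refine ⟨fun h => ((hMNI K n 0 (lexS A) hup).1 _).1 h s ?_,
      fun h => Ideal.subset_span ⟨s, h, rfl⟩⟩
    rw [mem_support_iff, coeff_monomial, if_pos rfl]
    exact one_ne_zero
  refine ⟨Ideal.span ((fun s => monomial s (1 : K)) '' lexS A), fun p hp s hs =>
    (hmem s).2 (((hMNI K n 0 (lexS A) hup).1 p).1 hp s hs), fun s t hst hs hle => ?_,
    fun d => ?_⟩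
  · rw [hmem] at hs ⊢
    rcases (hLXM n s t).1 hle with h4 | h4
    · rw [← h4]
      exact hs
    · obtain ⟨x, hx, hxs⟩ := hs
      refine ⟨x, by rw [← hst]; exact hx, Or.inr ?_⟩
      rcases hxs with h5 | h5
      · rw [h5]
        exact h4
      · exact (hLXO n x (fun i => s i) (fun i => t i)).2.1 h5 h4
  · rw [lex_sup hr]
    have hup' : ∀ s ∈ vioS n r ∪ lexS A, ∀ t, s ≤ t → t ∈ vioS n r ∪ lexS A := by
      rintro s (hs | hs) t hst
      · obtain ⟨i, hi, h4⟩ := hs
        exact Or.inl ⟨i, hi, h4.trans (hst i)⟩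
      · exact Or.inr (hup s hs t hst)
    rw [(hMNI K n d _ hup').2]
    -- the count
    have hc1 : Nat.card {s : Fin n →₀ ℕ // s ∈ vioS n r ∪ lexS A ∧ s.degree = d} =
        Nat.card {s : Fin n →₀ ℕ // (¬ Cp (cp r n) (fun i => s i) ∨ (fun i => s i) ∈ A d) ∧
          s.degree = d} := by
      refine Nat.card_congr (Equiv.subtypeEquivRight fun s => ?_)
      refine ⟨fun h => ⟨?_, h.2⟩, fun h => ⟨?_, h.2⟩⟩
      · rcases h.1 with h4 | h4
        · exact Or.inl ((cp_iff _).2 h4)
        · by_cases h5 : Cp (cp r n) (fun i => s i)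
          · right
            obtain ⟨x, hx, hxs⟩ := h4
            rw [h.2] at hx
            rcases hxs with h6 | h6
            · rw [← h6]
              exact hx
            · exact (h1 d).2 x hx _ (((hMOM n (cp r n) d _).1).2
                ⟨by rw [← h.2, Finsupp.degree_eq_sum], h5⟩) h6
          · exact Or.inl h5
      · rcases h.1 with h4 | h4
        · exact Or.inl ((cp_iff _).1 h4)
        · exact Or.inr ⟨_, by rw [h.2]; exact h4, Or.inl rfl⟩
    rw [hc1, lex_card d (fun x => ¬ Cp (cp r n) x ∨ x ∈ A d)]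
    -- the dimension of the forms
    have hall : Module.finrank K ↥(fm K n d) = (Finset.piAntidiag (Finset.univ : Finset (Fin n))
        d).card := by
      have h4 := (hMNI K n d Set.univ (fun s _ t _ => Set.mem_univ t)).2
      have e1 : Ideal.span ((fun s => monomial s (1 : K)) '' (Set.univ : Set (Fin n →₀ ℕ))) =
          ⊤ := by
        rw [Ideal.eq_top_iff_one]
        exact Ideal.subset_span ⟨0, Set.mem_univ _, rfl⟩
      rw [e1] at h4
      have e2 : (homogeneousSubmodule (Fin n) K d ⊓ Submodule.restrictScalars K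
          (⊤ : Ideal (PR K n))) = fm K n d := by
        rw [Submodule.restrictScalars_top, inf_top_eq]
      rw [e2] at h4
      rw [h4]
      have h5 : Nat.card {s : Fin n →₀ ℕ // s ∈ (Set.univ : Set (Fin n →₀ ℕ)) ∧ s.degree = d} =
          Nat.card {s : Fin n →₀ ℕ // (fun _ : Fin n → ℕ => True) (fun i => s i) ∧
            s.degree = d} :=
        Nat.card_congr (Equiv.subtypeEquivRight fun s => ⟨fun h => ⟨trivial, h.2⟩,
          fun h => ⟨Set.mem_univ _, h.2⟩⟩)
      rw [h5, lex_card d (fun _ => True), Finset.filter_true]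
    have hle : Module.finrank K ↥(I.restrictScalars K ⊓ fm K n d) ≤
        Module.finrank K ↥(fm K n d) := by
      have := hFIN K n d
      exact Submodule.finrank_mono inf_le_right
    have hAM : A d ⊆ Mo (cp r n) d := (h1 d).1
    have hsplit : ((Finset.piAntidiag (Finset.univ : Finset (Fin n)) d).filter
        (fun x => ¬ Cp (cp r n) x ∨ x ∈ A d)).card =
        ((Finset.piAntidiag (Finset.univ : Finset (Fin n)) d).filter
          (fun x => ¬ Cp (cp r n) x)).card + (A d).card := by
      rw [Finset.filter_or]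
      have e3 : (Finset.piAntidiag (Finset.univ : Finset (Fin n)) d).filter (fun x => x ∈ A d) =
          A d := by
        ext x
        rw [Finset.mem_filter]
        refine ⟨fun h => h.2, fun h => ⟨?_, h⟩⟩
        have h5 := hAM h
        unfold Mo at h5
        exact (Finset.mem_filter.1 h5).1
      rw [e3]
      refine Finset.card_union_of_disjoint (Finset.disjoint_left.2 fun x hx hx' => ?_)
      have h5 := hAM hx'
      unfold Mo at h5
      exact (Finset.mem_filter.1 hx).2 (Finset.mem_filter.1 h5).2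
    have htot : (Finset.piAntidiag (Finset.univ : Finset (Fin n)) d).card =
        (Mo (cp r n) d).card + ((Finset.piAntidiag (Finset.univ : Finset (Fin n)) d).filter
          (fun x => ¬ Cp (cp r n) x)).card := by
      have e4 : (Mo (cp r n) d).card = ((Finset.piAntidiag (Finset.univ : Finset (Fin n))
          d).filter (fun x => Cp (cp r n) x)).card := by
        unfold Mo
        refine congrArg Finset.card (Finset.ext fun x => ?_)
        rw [Finset.mem_filter]
      rw [e4, Finset.card_filter_add_card_filter_not]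
    have h6 : Module.finrank K ↥(fm K n d) - Module.finrank K ↥(I.restrictScalars K ⊓ fm K n d) +
        (A d).card = (Mo (cp r n) d).card := h3 d
    have e5 : (homogeneousSubmodule (Fin n) K d ⊓ Submodule.restrictScalars K I) =
        I.restrictScalars K ⊓ fm K n d := inf_comm _ _
    rw [e5, hsplit]
    obtain ⟨b, hb⟩ : ∃ b, b = Module.finrank K ↥(I.restrictScalars K ⊓ fm K n d) := ⟨_, rfl⟩
    rw [← hb] at h6
    rw [← hb] at hle
    rw [← hb]
    omega

end Pool.EGC
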